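import Mathlib
import Pool.Agent.W751.CV.Stm

set_option autoImplicit false

open Polynomial Filter Topology MeasureTheory Metric

namespace Pool.Agent.W797.CV

open Pool.Agent.W751.CV

instance mD_finite (ρ : ℝ) : IsFiniteMeasure (mD ρ) := by
  constructor
  unfold mD
  rw [Measure.restrict_apply_univ]
  exact measure_closedBall_lt_top

lemma mD_compl (ρ : ℝ) : mD ρ (closedBall (0 : ℂ) ρ)ᶜ = 0 := by
  unfold mD
  rw [Measure.restrict_apply measurableSet_closedBall.compl]
  simp

/-- rotation invariance of integrals on the disc -/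
lemma rot_int (ρ : ℝ) (u : Circle) (f : ℂ → ℂ) :
    ∫ x, f ((u : ℂ) * x) ∂(mD ρ) = ∫ x, f x ∂(mD ρ) := by
  unfold mD
  have hmp := (rotation u).measurePreserving
  have hemb : MeasurableEmbedding (rotation u : ℂ → ℂ) :=
    (rotation u).toHomeomorph.measurableEmbedding
  have h := hmp.setIntegral_preimage_emb hemb f (closedBall (0 : ℂ) ρ)
  have e : (rotation u : ℂ → ℂ) ⁻¹' closedBall (0 : ℂ) ρ = closedBall (0 : ℂ) ρ := by
    ext x
    simp only [Set.mem_preimage, mem_closedBall_zero_iff, LinearIsometryEquiv.norm_map]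
  rw [e] at h
  exact h

lemma off_diag (ρ : ℝ) {j k : ℕ} (hjk : j ≠ k) :
    ∫ x, (starRingEnd ℂ) (x ^ j) * x ^ k ∂(mD ρ) = 0 := by
  set I := ∫ x, (starRingEnd ℂ) (x ^ j) * x ^ k ∂(mD ρ) with hI
  have hne : ((k : ℝ) - j) ≠ 0 := by
    intro h
    apply hjk
    have : (k : ℝ) = j := by linarith
    exact_mod_cast this.symm
  set θ : ℝ := Real.pi / ((k : ℝ) - j) with hθ
  have h : ∫ x, (starRingEnd ℂ) (((Circle.exp θ : ℂ) * x) ^ j) * ((Circle.exp θ : ℂ) * x) ^ k ∂(mD ρ)
      = I := rot_int ρ (Circle.exp θ) (fun x => (starRingEnd ℂ) (x ^ j) * x ^ k)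
  have hu : (starRingEnd ℂ) ((Circle.exp θ : ℂ) ^ j) * (Circle.exp θ : ℂ) ^ k = -1 := by
    rw [Circle.coe_exp, ← Complex.exp_nat_mul, ← Complex.exp_nat_mul, ← Complex.exp_conj,
      ← Complex.exp_add, ← Complex.exp_pi_mul_I]
    congr 1
    simp only [map_mul, map_natCast, Complex.conj_ofReal, Complex.conj_I]
    have : ((k : ℂ) - j) * θ = Real.pi := by
      rw [hθ]
      push_cast
      have hne' : ((k : ℂ) - j) ≠ 0 := by exact_mod_cast hne
      field_simp
    linear_combination Complex.I * this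
  have e : (fun x : ℂ => (starRingEnd ℂ) (((Circle.exp θ : ℂ) * x) ^ j) * ((Circle.exp θ : ℂ) * x) ^ k)
      = fun x => (-1 : ℂ) * ((starRingEnd ℂ) (x ^ j) * x ^ k) := by
    ext x
    rw [← hu, mul_pow, mul_pow, map_mul]
    ring
  rw [e, integral_const_mul, ← hI] at h
  have h2 : (2 : ℂ) * I = 0 := by linear_combination (-1 : ℂ) * h
  simpa using h2

lemma diag (ρ : ℝ) (hρ : 0 < ρ) (k : ℕ) :
    ∫ x, (starRingEnd ℂ) (x ^ k) * x ^ k ∂(mD ρ) = (hk ρ k : ℂ) := by
  have e : (fun x : ℂ => (starRingEnd ℂ) (x ^ k) * x ^ k) = fun x => ((‖x‖ ^ (2 * k) : ℝ) : ℂ) := by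
    ext x
    rw [← Complex.normSq_eq_conj_mul_self, Complex.normSq_eq_norm_sq, norm_pow]
    push_cast
    ring
  rw [e]
  have e0 : ∫ x : ℂ, ((‖x‖ ^ (2 * k) : ℝ) : ℂ) ∂(mD ρ) = ((∫ x : ℂ, ‖x‖ ^ (2 * k) ∂(mD ρ) : ℝ) : ℂ) :=
    integral_ofReal
  rw [e0]
  congr 1
  unfold mD
  rw [← integral_indicator measurableSet_closedBall]
  have e2 : (closedBall (0 : ℂ) ρ).indicator (fun x => ‖x‖ ^ (2 * k))
      = fun x : ℂ => (Set.Iic ρ).indicator (fun t : ℝ => t ^ (2 * k)) ‖x‖ := by
    ext x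
    simp only [Set.indicator, mem_closedBall_zero_iff, Set.mem_Iic]
  rw [e2, integral_fun_norm_addHaar volume (fun t => (Set.Iic ρ).indicator (fun t : ℝ => t ^ (2 * k)) t)]
  have hb : (volume : Measure ℂ).real (ball 0 1) = Real.pi := by
    rw [Measure.real, Complex.volume_ball]
    simp
  rw [hb, Complex.finrank_real_complex]
  have e3 : (fun y : ℝ => y ^ (2 - 1) • (Set.Iic ρ).indicator (fun t : ℝ => t ^ (2 * k)) y)
      = (Set.Iic ρ).indicator (fun y : ℝ => y ^ (2 * k + 1)) := by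
    ext y
    by_cases hy : y ∈ Set.Iic ρ
    · rw [Set.indicator_of_mem hy, Set.indicator_of_mem hy, smul_eq_mul]
      ring
    · rw [Set.indicator_of_notMem hy, Set.indicator_of_notMem hy, smul_zero]
  rw [e3, setIntegral_indicator measurableSet_Iic, Set.Ioi_inter_Iic,
    ← intervalIntegral.integral_of_le hρ.le, integral_pow]
  unfold hk
  simp only [nsmul_eq_mul, smul_eq_mul]
  push_cast
  have : (k : ℝ) + 1 ≠ 0 := by positivity
  field_simp
  ring

lemma vd_eq {N : ℕ} (z : Fin N → ℂ) :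
    vd z = ‖(Matrix.of fun i j : Fin N => ((fun j : Fin N => (X : ℂ[X]) ^ (j : ℕ)) j).eval (z i)).det‖ ^ 2 := by
  unfold vd
  congr 3
  ext i j
  simp [Matrix.vandermonde_apply]

theorem main : S_ZN := by
  intro hAND ρ N hρ
  constructor
  · have hA := hAND N (mD ρ) ρ (mD_compl ρ) (fun j : Fin N => (X : ℂ[X]) ^ (j : ℕ))
    obtain ⟨hint, heq⟩ := hA
    have hint' : Integrable (fun z : Fin N → ℂ => vd z) (Measure.pi fun _ : Fin N => mD ρ) := by
      refine hint.congr (Eventually.of_forall fun z => ?_)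
      exact (vd_eq z).symm
    have hval : ∫ z, vd z ∂(Measure.pi fun _ : Fin N => mD ρ) = ZN ρ N := by
      have e1 : ∫ z, vd z ∂(Measure.pi fun _ : Fin N => mD ρ)
          = ∫ z, ‖(Matrix.of fun i j : Fin N =>
            ((fun j : Fin N => (X : ℂ[X]) ^ (j : ℕ)) j).eval (z i)).det‖ ^ 2
            ∂(Measure.pi fun _ : Fin N => mD ρ) := by
        congr 1
        ext z
        exact vd_eq z
      have e2 : ((∫ z, vd z ∂(Measure.pi fun _ : Fin N => mD ρ) : ℝ) : ℂ) = (ZN ρ N : ℂ) := by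
        rw [e1, heq]
        have e3 : (Matrix.of fun j k : Fin N =>
            ∫ x, (starRingEnd ℂ) (((fun j : Fin N => (X : ℂ[X]) ^ (j : ℕ)) j).eval x)
              * ((fun j : Fin N => (X : ℂ[X]) ^ (j : ℕ)) k).eval x ∂(mD ρ))
            = Matrix.diagonal fun k : Fin N => (hk ρ (k : ℕ) : ℂ) := by
          ext j k
          simp only [Matrix.of_apply, eval_pow, eval_X]
          by_cases hjk : j = k
          · subst hjk
            rw [Matrix.diagonal_apply_eq]
            exact diag ρ hρ j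
          · rw [Matrix.diagonal_apply_ne _ hjk]
            exact off_diag ρ (fun h => hjk (Fin.ext h))
        rw [e3, Matrix.det_diagonal]
        unfold ZN
        push_cast
        congr 1
        rw [Finset.prod_range]
      exact_mod_cast e2
    unfold mu
    rw [withDensity_apply _ MeasurableSet.univ, Measure.restrict_univ,
      ← ofReal_integral_eq_lintegral_ofReal hint' (Eventually.of_forall fun z => by
        unfold vd
        positivity), hval]
  · unfold mu
    apply withDensity_absolutelyContinuous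
    have e : {z : Fin N → ℂ | ¬ ∀ i, ‖z i‖ ≤ ρ} = ⋃ i : Fin N, (Function.eval i) ⁻¹' (closedBall (0 : ℂ) ρ)ᶜ := by
      ext z
      simp
    rw [e]
    apply measure_iUnion_null
    intro i
    exact (Measure.quasiMeasurePreserving_eval (fun _ : Fin N => mD ρ) i).preimage_null (mD_compl ρ)

end Pool.Agent.W797.CV
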